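import Pool.Agent.Run7.h747.ZB.Defs

/-!
# Piece DEC: rapid decay of the Fourier coefficients of a smooth periodic function
-/

set_option autoImplicit false

namespace Run7.h267.ZB

open Run7.h747.ZB MeasureTheory

noncomputable section

/-- the exponential -/
def E (n : ℤ) (x : ℝ) : ℂ := Complex.exp (-(Complex.I * ((n : ℤ) : ℂ) * (x : ℂ)))

theorem hasDerivAt_E (n : ℤ) (x : ℝ) :
    HasDerivAt (E n) (E n x * (-(Complex.I * ((n : ℤ) : ℂ) * 1))) x := by
  have h1 : HasDerivAt (fun x : ℝ => (x : ℂ)) 1 x := Complex.ofRealCLM.hasDerivAt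
  exact ((h1.const_mul (Complex.I * ((n : ℤ) : ℂ))).fun_neg).cexp

theorem continuous_E (n : ℤ) : Continuous (E n) := by
  unfold E
  fun_prop

theorem E_zero (n : ℤ) : E n 0 = 1 := by
  simp [E]

theorem E_two_pi (n : ℤ) : E n (2 * Real.pi) = 1 := by
  unfold E
  rw [Complex.exp_eq_one_iff]
  refine ⟨-n, ?_⟩
  push_cast
  ring

theorem norm_E (n : ℤ) (x : ℝ) : ‖E n x‖ = 1 := by
  unfold E
  rw [Complex.norm_exp]
  simp

/-- the coefficient -/
def co (a : ℝ → ℝ) (n : ℤ) : ℂ := ∫ x in (0 : ℝ)..(2 * Real.pi), (a x : ℂ) * E n x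

theorem co_deriv (a : ℝ → ℝ) (ha : ContDiff ℝ (⊤ : ℕ∞) a)
    (hp : Function.Periodic a (2 * Real.pi)) (n : ℤ) :
    co (deriv a) n = Complex.I * n * co a n := by
  have hd : Differentiable ℝ a := ha.differentiable (by simp)
  have hc : Continuous (deriv a) := ha.continuous_deriv (by simp)
  have h1 : ∀ x ∈ Set.uIcc (0 : ℝ) (2 * Real.pi), HasDerivAt (fun x => (a x : ℂ) * E n x)
      (((deriv a x : ℝ) : ℂ) * E n x + (a x : ℂ) * (E n x * (-(Complex.I * ((n : ℤ) : ℂ) * 1)))) x := by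
    intro x _
    exact ((hd x).hasDerivAt.ofReal_comp).mul (hasDerivAt_E n x)
  have hcE := continuous_E n
  have hca : Continuous a := hd.continuous
  have hi1 : IntervalIntegrable (fun x => ((deriv a x : ℝ) : ℂ) * E n x) volume 0 (2 * Real.pi) := by
    apply Continuous.intervalIntegrable
    fun_prop
  have hi2 : IntervalIntegrable (fun x => (a x : ℂ) * (E n x * (-(Complex.I * ((n : ℤ) : ℂ) * 1))))
      volume 0 (2 * Real.pi) := by
    apply Continuous.intervalIntegrable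
    fun_prop
  have h2 := intervalIntegral.integral_eq_sub_of_hasDerivAt h1 (hi1.add hi2)
  rw [intervalIntegral.integral_add hi1 hi2, E_zero, E_two_pi] at h2
  have h3 : a (2 * Real.pi) = a 0 := by
    have := hp 0
    rwa [zero_add] at this
  rw [h3, sub_self] at h2
  have h4 : (∫ x in (0 : ℝ)..(2 * Real.pi), (a x : ℂ) * (E n x * (-(Complex.I * ((n : ℤ) : ℂ) * 1)))) =
      -(Complex.I * n) * co a n := by
    unfold co
    rw [← intervalIntegral.integral_const_mul]
    congr 1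
    funext x
    ring
  rw [h4] at h2
  have h5 : co (deriv a) n + -(Complex.I * n) * co a n = 0 := h2
  linear_combination h5

theorem co_bound : ∀ (p : ℕ) (a : ℝ → ℝ), ContDiff ℝ (⊤ : ℕ∞) a →
    Function.Periodic a (2 * Real.pi) → ∃ K : ℝ, ∀ n : ℤ, ‖co a n‖ * |(n : ℝ)| ^ p ≤ K := by
  intro p
  induction p with
  | zero =>
    intro a ha _
    obtain ⟨C, hC⟩ := (isCompact_uIcc (a := (0 : ℝ)) (b := 2 * Real.pi)).exists_bound_of_continuousOn
      (ha.continuous.continuousOn)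
    refine ⟨C * |2 * Real.pi - 0|, fun n => ?_⟩
    rw [pow_zero, mul_one]
    unfold co
    apply intervalIntegral.norm_integral_le_of_norm_le_const
    intro x hx
    rw [norm_mul, norm_E, mul_one, Complex.norm_real]
    exact hC x (Set.uIoc_subset_uIcc hx)
  | succ p ih =>
    intro a ha hp
    have hda : ContDiff ℝ (⊤ : ℕ∞) (deriv a) := by
      rw [contDiff_infty_iff_deriv] at ha
      exact ha.2
    have hdp : Function.Periodic (deriv a) (2 * Real.pi) := by
      intro x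
      have h1 : (fun y => a (y + 2 * Real.pi)) = a := funext hp
      rw [← deriv_comp_add_const, h1]
    obtain ⟨K, hK⟩ := ih (deriv a) hda hdp
    refine ⟨K, fun n => ?_⟩
    have h1 := hK n
    rw [co_deriv a ha hp n, norm_mul, norm_mul, Complex.norm_I, one_mul] at h1
    have h2 : ‖((n : ℤ) : ℂ)‖ = |(n : ℝ)| := by
      rw [Complex.norm_intCast]
    rw [h2] at h1
    calc ‖co a n‖ * |(n : ℝ)| ^ (p + 1) = |(n : ℝ)| * ‖co a n‖ * |(n : ℝ)| ^ p := by ring
      _ ≤ K := h1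

theorem t_DEC : S_DEC := by
  intro a ha hp p
  obtain ⟨K₀, hK₀⟩ := co_bound 0 a ha hp
  obtain ⟨K, hK⟩ := co_bound p a ha hp
  refine ⟨‖(1 / (2 * (Real.pi : ℂ)))‖ * (2 ^ (p - 1) * (K₀ + K)), fun n => ?_⟩
  change ‖(1 / (2 * (Real.pi : ℂ))) * co a n‖ * _ ≤ _
  rw [norm_mul, mul_assoc]
  refine mul_le_mul_of_nonneg_left ?_ (norm_nonneg _)
  have h1 : (1 + |(n : ℝ)|) ^ p ≤ 2 ^ (p - 1) * (1 ^ p + |(n : ℝ)| ^ p) :=
    add_pow_le zero_le_one (abs_nonneg _) p
  have h2 := hK₀ n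
  have h3 := hK n
  rw [pow_zero, mul_one] at h2
  calc ‖co a n‖ * (1 + |(n : ℝ)|) ^ p ≤ ‖co a n‖ * (2 ^ (p - 1) * (1 ^ p + |(n : ℝ)| ^ p)) :=
        mul_le_mul_of_nonneg_left h1 (norm_nonneg _)
    _ = 2 ^ (p - 1) * (‖co a n‖ + ‖co a n‖ * |(n : ℝ)| ^ p) := by
        rw [one_pow]
        ring
    _ ≤ 2 ^ (p - 1) * (K₀ + K) := by
        apply mul_le_mul_of_nonneg_left (add_le_add h2 h3)
        positivity

end

end Run7.h267.ZB
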