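import Pool.Agent.Run7.h747.ZB.Defs

/-!
# Piece SUMM: summability of the terms of the zeta-invariants
-/

set_option autoImplicit false

namespace Run7.h267.ZB

open Run7.h747.ZB

noncomputable section

theorem one_add_sum_le {ι : Type*} (s : Finset ι) (f : ι → ℤ) (hf : ∀ i, 0 ≤ f i) :
    1 + ∑ i ∈ s, f i ≤ ∏ i ∈ s, (1 + f i) := by
  classical
  induction s using Finset.induction_on with
  | empty => simp
  | insert a s ha ih =>
    rw [Finset.sum_insert ha, Finset.prod_insert ha]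
    have h1 := hf a
    have h2 : 0 ≤ ∑ i ∈ s, f i := Finset.sum_nonneg fun i _ => hf i
    nlinarith [mul_nonneg h1 h2, mul_nonneg (by linarith : (0 : ℤ) ≤ 1 + f a) (sub_nonneg.2 ih)]

theorem finsum_bound (m : ℕ) (hm : Even (m + 1)) (j : Fin (m + 1) → ℤ) :
    |(∑ᶠ n : ℤ, (|∏ i : Fin (m + 1), (n + ∑ l ∈ Finset.Iio i, j l)|
        - ∏ i : Fin (m + 1), (n + ∑ l ∈ Finset.Iio i, j l)))| ≤
      2 * (2 * (∑ i, |j i|) + 1) ^ (m + 2) := by
  set b : ℤ := ∑ i, |j i| with hb
  have hb0 : 0 ≤ b := Finset.sum_nonneg fun i _ => abs_nonneg _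
  set s : Fin (m + 1) → ℤ := fun i => ∑ l ∈ Finset.Iio i, j l with hs
  have hsb : ∀ i, |s i| ≤ b := by
    intro i
    refine (Finset.abs_sum_le_sum_abs _ _).trans ?_
    exact Finset.sum_le_sum_of_subset_of_nonneg (Finset.subset_univ _) fun i _ _ => abs_nonneg _
  change |(∑ᶠ n : ℤ, (|∏ i : Fin (m + 1), (n + s i)| - ∏ i : Fin (m + 1), (n + s i)))| ≤ _
  have hsupp : (Function.support fun n : ℤ => (|∏ i : Fin (m + 1), (n + s i)| -
      ∏ i : Fin (m + 1), (n + s i))) ⊆ (Finset.Icc (-b) b : Finset ℤ) := by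
    intro n hn
    rw [Finset.coe_Icc, Set.mem_Icc]
    by_contra hcon
    apply hn
    change |∏ i : Fin (m + 1), (n + s i)| - ∏ i : Fin (m + 1), (n + s i) = 0
    have hnn : 0 ≤ ∏ i : Fin (m + 1), (n + s i) := by
      rcases lt_or_ge n (-b) with h | h
      · have h1 : ∏ i : Fin (m + 1), (n + s i) = ∏ i : Fin (m + 1), (-(n + s i)) := by
          rw [Finset.prod_neg, Finset.card_univ, Fintype.card_fin, hm.neg_one_pow, one_mul]
        rw [h1]
        apply Finset.prod_nonneg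
        intro i _
        have := abs_le.1 (hsb i)
        linarith
      · have h2 : b < n := by
          by_contra h3
          exact hcon ⟨h, not_lt.1 h3⟩
        apply Finset.prod_nonneg
        intro i _
        have := abs_le.1 (hsb i)
        linarith
    rw [abs_of_nonneg hnn, sub_self]
  rw [finsum_eq_sum_of_support_subset _ hsupp]
  have hterm : ∀ n ∈ Finset.Icc (-b) b, |(|∏ i : Fin (m + 1), (n + s i)| -
      ∏ i : Fin (m + 1), (n + s i))| ≤ 2 * (2 * b + 1) ^ (m + 1) := by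
    intro n hn
    rw [Finset.mem_Icc] at hn
    have h1 : |∏ i : Fin (m + 1), (n + s i)| ≤ (2 * b + 1) ^ (m + 1) := by
      rw [Finset.abs_prod]
      calc ∏ i : Fin (m + 1), |n + s i| ≤ ∏ _i : Fin (m + 1), (2 * b + 1) := by
            apply Finset.prod_le_prod
            · intro i _
              exact abs_nonneg _
            · intro i _
              have h2 := abs_le.1 (hsb i)
              rw [abs_le]
              constructor <;> linarith
        _ = (2 * b + 1) ^ (m + 1) := by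
            rw [Finset.prod_const, Finset.card_univ, Fintype.card_fin]
    have h3 := abs_le.1 h1
    have h4 := neg_abs_le (∏ i : Fin (m + 1), (n + s i))
    have h5 := le_abs_self (∏ i : Fin (m + 1), (n + s i))
    rw [abs_le]
    constructor <;> linarith
  calc |∑ n ∈ Finset.Icc (-b) b, (|∏ i : Fin (m + 1), (n + s i)| - ∏ i : Fin (m + 1), (n + s i))|
      ≤ ∑ n ∈ Finset.Icc (-b) b, |(|∏ i : Fin (m + 1), (n + s i)| -
          ∏ i : Fin (m + 1), (n + s i))| := Finset.abs_sum_le_sum_abs _ _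
    _ ≤ ∑ _n ∈ Finset.Icc (-b) b, 2 * (2 * b + 1) ^ (m + 1) := Finset.sum_le_sum hterm
    _ = (2 * b + 1) * (2 * (2 * b + 1) ^ (m + 1)) := by
        rw [Finset.sum_const, Int.card_Icc, nsmul_eq_mul]
        congr 1
        rw [Int.toNat_of_nonneg (by linarith)]
        ring
    _ = 2 * (2 * b + 1) ^ (m + 2) := by ring

theorem summable_one : Summable fun n : ℤ => ((1 + |(n : ℝ)|) ^ 2)⁻¹ := by
  have h1 : Summable fun n : ℤ => 1 / (n : ℝ) ^ 2 := Real.summable_one_div_int_pow.2 (by norm_num)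
  have h2 : Summable fun n : ℤ => if n = 0 then (1 : ℝ) else 0 :=
    summable_of_ne_finset_zero (s := {0}) (fun n hn => by
      rw [Finset.mem_singleton] at hn
      rw [if_neg hn])
  refine Summable.of_nonneg_of_le (fun n => by positivity) (fun n => ?_) (h1.add h2)
  by_cases hn : n = 0
  · subst hn
    simp
  · rw [if_neg hn, add_zero, one_div]
    have h3 : 0 < |(n : ℝ)| := abs_pos.2 (by exact_mod_cast hn)
    apply inv_anti₀
    · rw [← sq_abs]
      positivity
    · rw [← sq_abs]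
      gcongr
      linarith

theorem summable_pi (N : ℕ) (f : ℤ → ℝ) (hf : ∀ n, 0 ≤ f n) (hs : Summable f) :
    Summable fun j : Fin N → ℤ => ∏ i, f (j i) := by
  classical
  refine summable_of_sum_le (c := (∑' n, f n) ^ N) (fun j => Finset.prod_nonneg fun i _ => hf _)
    (fun u => ?_)
  let t : Fin N → Finset ℤ := fun i => u.image fun j => j i
  have hsub : u ⊆ Fintype.piFinset t := by
    intro j hj
    rw [Fintype.mem_piFinset]
    intro i
    exact Finset.mem_image_of_mem _ hj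
  calc ∑ j ∈ u, ∏ i, f (j i) ≤ ∑ j ∈ Fintype.piFinset t, ∏ i, f (j i) :=
        Finset.sum_le_sum_of_subset_of_nonneg hsub fun j _ _ => Finset.prod_nonneg fun i _ => hf _
    _ = ∏ i, ∑ n ∈ t i, f n := (Finset.prod_univ_sum t fun _ n => f n).symm
    _ ≤ ∏ _i : Fin N, ∑' n, f n := by
        apply Finset.prod_le_prod
        · intro i _
          exact Finset.sum_nonneg fun n _ => hf n
        · intro i _
          exact hs.sum_le_tsum _ fun n _ => hf n
    _ = (∑' n, f n) ^ N := by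
        rw [Finset.prod_const, Finset.card_univ, Fintype.card_fin]

theorem t_SUMM : S_SUMM := by
  intro m c hm hc
  obtain ⟨K, hK⟩ := hc (m + 4)
  have hsum : Summable fun j : Fin (m + 1) → ℤ => ∏ i, ((1 + |(j i : ℝ)|) ^ 2)⁻¹ :=
    summable_pi (m + 1) (fun n => ((1 + |(n : ℝ)|) ^ 2)⁻¹) (fun n => by positivity) summable_one
  have hsub : Summable fun j : {j : Fin (m + 1) → ℤ // ∑ i, j i = 0} =>
      2 ^ (m + 3) * K ^ (m + 1) * ∏ i, ((1 + |(j.1 i : ℝ)|) ^ 2)⁻¹ :=
    (hsum.comp_injective Subtype.val_injective).mul_left _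
  refine Summable.of_norm_bounded hsub fun j => ?_
  rw [norm_mul, norm_prod]
  set P : ℝ := ∏ i, (1 + |(j.1 i : ℝ)|) with hP
  have hP0 : 0 < P := Finset.prod_pos fun i _ => by positivity
  have hb : (2 * ((∑ i, |j.1 i| : ℤ) : ℝ) + 1) ≤ 2 * P := by
    have h1 := one_add_sum_le Finset.univ (fun i => |j.1 i|) fun i => abs_nonneg _
    have h2 : ((1 + ∑ i, |j.1 i| : ℤ) : ℝ) ≤ ((∏ i, (1 + |j.1 i|) : ℤ) : ℝ) := by exact_mod_cast h1
    have h3 : ((∏ i, (1 + |j.1 i|) : ℤ) : ℝ) = P := by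
      rw [hP]
      push_cast
      rfl
    rw [h3] at h2
    push_cast at h2 ⊢
    linarith
  have hb0 : (0 : ℝ) ≤ ((∑ i, |j.1 i| : ℤ) : ℝ) := by
    exact_mod_cast Finset.sum_nonneg fun i _ => abs_nonneg _
  have hN : ‖(((∑ᶠ n : ℤ, (|∏ i : Fin (m + 1), (n + ∑ l ∈ Finset.Iio i, j.1 l)|
        - ∏ i : Fin (m + 1), (n + ∑ l ∈ Finset.Iio i, j.1 l))) : ℤ) : ℂ)‖ ≤
      2 * (2 * P) ^ (m + 2) := by
    rw [Complex.norm_intCast]
    have h1 := finsum_bound m hm j.1
    have h2 : |(((∑ᶠ n : ℤ, (|∏ i : Fin (m + 1), (n + ∑ l ∈ Finset.Iio i, j.1 l)|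
        - ∏ i : Fin (m + 1), (n + ∑ l ∈ Finset.Iio i, j.1 l))) : ℤ) : ℝ)| ≤
        ((2 * (2 * (∑ i, |j.1 i|) + 1) ^ (m + 2) : ℤ) : ℝ) := by
      exact_mod_cast h1
    refine h2.trans ?_
    rw [Int.cast_mul, Int.cast_pow, Int.cast_add, Int.cast_mul, Int.cast_ofNat, Int.cast_one]
    gcongr
  have hcb : ∏ i, ‖c (j.1 i)‖ ≤ ∏ i, (K * ((1 + |(j.1 i : ℝ)|) ^ (m + 4))⁻¹) := by
    apply Finset.prod_le_prod
    · intro i _
      exact norm_nonneg _
    · intro i _
      have h1 := hK (j.1 i)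
      have h2 : 0 < (1 + |(j.1 i : ℝ)|) ^ (m + 4) := by positivity
      rw [← div_eq_mul_inv, le_div_iff₀ h2]
      exact h1
  have hcb2 : ∏ i, (K * ((1 + |(j.1 i : ℝ)|) ^ (m + 4))⁻¹) = K ^ (m + 1) * (P ^ (m + 4))⁻¹ := by
    rw [Finset.prod_mul_distrib, Finset.prod_const, Finset.card_univ, Fintype.card_fin,
      Finset.prod_inv_distrib, Finset.prod_pow]
  have hr : ∏ i, ((1 + |(j.1 i : ℝ)|) ^ 2)⁻¹ = (P ^ 2)⁻¹ := by
    rw [Finset.prod_inv_distrib, Finset.prod_pow]
  rw [hr]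
  calc _ ≤ (2 * (2 * P) ^ (m + 2)) * (K ^ (m + 1) * (P ^ (m + 4))⁻¹) := by
        apply mul_le_mul hN (hcb.trans hcb2.le) (Finset.prod_nonneg fun i _ => norm_nonneg _)
        positivity
    _ = 2 ^ (m + 3) * K ^ (m + 1) * (P ^ 2)⁻¹ := by
        have h1 : P ^ (m + 4) = P ^ (m + 2) * P ^ 2 := by ring
        rw [h1, mul_pow]
        field_simp
        ring

end

end Run7.h267.ZB
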